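import Mathlib
import Pool.Agent.V11104.WIDefs
import Pool.Agent.V11104.WIB

/-!
# MP_28fd2b_an: a weak interpolation set of order `k ≥ 2` for uniquely ergodic systems has upper
Banach density strictly below `1/k`
-/

set_option autoImplicit false

open Filter

namespace Pool.Agent.Results.MP_28fd2b_an.DensityLt

open Pool.Agent.V11104

/-- The upper Banach density of `S`: the limit (equivalently, the upper limit) as `N → ∞` of
`sup_m |S ∩ {m+1, …, m+N}| / N`. -/
noncomputable def upperBanachDensity (S : Set ℕ) : ℝ :=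
  limsup (fun N : ℕ => ⨆ m : ℕ, (((S ∩ Set.Ioc m (m + N)).ncard : ℕ) : ℝ) / N) atTop

/-- every interval of length `N` has density at most one -/
lemma ratio_le_one (S : Set ℕ) (m N : ℕ) :
    (((S ∩ Set.Ioc m (m + N)).ncard : ℕ) : ℝ) / N ≤ 1 := by
  have h1 : (S ∩ Set.Ioc m (m + N)).ncard ≤ N := by
    calc (S ∩ Set.Ioc m (m + N)).ncard ≤ (Set.Ioc m (m + N)).ncard :=
          Set.ncard_le_ncard Set.inter_subset_right (Set.finite_Ioc _ _)
      _ = N := by
          rw [← Finset.coe_Ioc, Set.ncard_coe_finset]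
          simp
  rcases Nat.eq_zero_or_pos N with h | h
  · subst h; simp
  · rw [div_le_one (by exact_mod_cast h)]
    exact_mod_cast h1

/-- A weak interpolation set of order `k ≥ 2` for uniquely ergodic systems has upper Banach
density strictly below `1/k`. -/
theorem result (k : ℕ) (hk : 2 ≤ k) (S : Set ℕ) (hS : WeakInterpolation k S) :
    upperBanachDensity S < 1 / (k : ℝ) := by
  classical
  by_contra hcon
  push Not at hcon
  refine UE.no_dense hk hS fun ε hε E M => ?_
  -- trivial case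
  by_cases hneg : 1 / (k : ℝ) - ε ≤ 0
  · exact ⟨E, M, le_rfl, le_rfl, (mul_nonpos_of_nonpos_of_nonneg hneg (Nat.cast_nonneg _)).trans
      (Nat.cast_nonneg _)⟩
  push Not at hneg
  have hlt : 1 / (k : ℝ) - ε / 2 < limsup
      (fun N : ℕ => ⨆ m : ℕ, (((S ∩ Set.Ioc m (m + N)).ncard : ℕ) : ℝ) / N) atTop := by
    have : 1 / (k : ℝ) ≤ limsup
      (fun N : ℕ => ⨆ m : ℕ, (((S ∩ Set.Ioc m (m + N)).ncard : ℕ) : ℝ) / N) atTop := hcon
    linarith
  have hcob : IsCoboundedUnder (· ≤ ·) atTop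
      (fun N : ℕ => ⨆ m : ℕ, (((S ∩ Set.Ioc m (m + N)).ncard : ℕ) : ℝ) / N) := by
    refine IsCoboundedUnder.of_frequently_ge (a := 0) (Frequently.of_forall fun N => ?_)
    exact Real.iSup_nonneg fun m => by positivity
  have hfreq := frequently_lt_of_lt_limsup hcob hlt
  obtain ⟨B, hB⟩ := exists_nat_gt ((E : ℝ) / (ε / 2))
  obtain ⟨N, hNlt, hN⟩ := (hfreq.and_eventually (eventually_ge_atTop (M + E + B + 1))).exists
  obtain ⟨m, hm⟩ := exists_lt_of_lt_ciSup hNlt
  have hNpos : (0 : ℝ) < N := by exact_mod_cast (by omega : 0 < N)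
  refine ⟨m + 1 + E, N - E, by omega, by omega, ?_⟩
  have h1 : (S ∩ Set.Ioc m (m + N)).ncard
      ≤ E + ((Finset.range (N - E)).filter (fun i => m + 1 + E + i ∈ S)).card := by
    have hsub : S ∩ Set.Ioc m (m + N) ⊆ (((Finset.Ioc m (m + E)) ∪
        ((Finset.range (N - E)).filter (fun i => m + 1 + E + i ∈ S)).image
          (fun i => m + 1 + E + i) : Finset ℕ) : Set ℕ) := by
      intro n hn
      obtain ⟨hnS, hn1, hn2⟩ := hn
      rw [Finset.mem_coe, Finset.mem_union]
      by_cases h : n ≤ m + E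
      · left; exact Finset.mem_Ioc.2 ⟨hn1, h⟩
      · right
        rw [Finset.mem_image]
        obtain ⟨r, rfl⟩ : ∃ r, n = m + 1 + E + r := ⟨n - (m + 1 + E), by omega⟩
        exact ⟨r, Finset.mem_filter.2 ⟨Finset.mem_range.2 (by omega), hnS⟩, rfl⟩
    calc (S ∩ Set.Ioc m (m + N)).ncard ≤ _ := Set.ncard_le_ncard hsub (Finset.finite_toSet _)
      _ = _ := Set.ncard_coe_finset _
      _ ≤ _ := Finset.card_union_le _ _
      _ ≤ _ := by
          rw [Nat.card_Ioc]
          have := Finset.card_image_le (s := (Finset.range (N - E)).filter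
            (fun i => m + 1 + E + i ∈ S)) (f := fun i => m + 1 + E + i)
          omega
  have h2 : ((S ∩ Set.Ioc m (m + N)).ncard : ℝ)
      ≤ E + ((Finset.range (N - E)).filter (fun i => m + 1 + E + i ∈ S)).card := by
    exact_mod_cast h1
  rw [lt_div_iff₀ hNpos] at hm
  have h3 : (((N - E : ℕ)) : ℝ) ≤ N := by exact_mod_cast Nat.sub_le N E
  have h4 : (E : ℝ) ≤ (ε / 2) * N := by
    rw [div_lt_iff₀ (by positivity)] at hB
    have h5 : ((B : ℕ) : ℝ) ≤ N := by exact_mod_cast (by omega : B ≤ N)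
    nlinarith
  have h5 : (1 / (k : ℝ) - ε) * ((N - E : ℕ) : ℝ) ≤ (1 / (k : ℝ) - ε) * N :=
    mul_le_mul_of_nonneg_left h3 hneg.le
  linarith

end Pool.Agent.Results.MP_28fd2b_an.DensityLt
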